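import Pool.Agent.R195.DV.Asymp

/-!
# MP_d046ed: the `t`-dimension of divisibility on `(αn, n]` is asymptotic to `log n / log t`
-/

set_option autoImplicit false

open Filter Topology

namespace Pool.Agent.Results.MP_d046ed_co.DimensionAsymptotics

/-- The set of positive integers in `(αn, n]`. -/
def D (α : ℝ) (n : ℕ) : Set ℕ := {m | α * n < m ∧ m ≤ n}

/-- The `t`-dimension of `S`, ordered by divisibility: the least `d ≥ 1` such that there is an
injective map `f : S → {0, …, t-1}^d` with `x ∣ y ↔ f x ≤ f y` (coordinatewise). -/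
noncomputable def tdim (t : ℕ) (S : Set ℕ) : ℕ :=
  sInf {d | 1 ≤ d ∧ ∃ f : S → (Fin d → Fin t), Function.Injective f ∧
    ∀ x y : S, (x : ℕ) ∣ y ↔ f x ≤ f y}

open R195.DV

theorem D_eq (α : ℝ) (n : ℕ) : D α n = Dv α n := rfl

theorem tendsto_main (α : ℝ) (hα : 0 < α) (hα1 : α < 1) (t : ℕ) (ht : 2 ≤ t) :
    Tendsto (fun n : ℕ => (tdim t (D α n) : ℝ) / Real.log n) atTop (𝓝 (1 / Real.log t)) := by
  have ht' : (2 : ℝ) ≤ t := by exact_mod_cast ht
  have hlt : 0 < Real.log t := Real.log_pos (by linarith)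
  have hlog : Tendsto (fun n : ℕ => Real.log n) atTop atTop :=
    Real.tendsto_log_atTop.comp tendsto_natCast_atTop_atTop
  rw [tendsto_order]
  constructor
  · intro c hc
    have h1 : 0 < 1 - c * Real.log t := by
      rw [lt_div_iff₀ hlt] at hc
      linarith
    have ev1 := upper α hα t ht (1 / Real.log t + 1) (by linarith)
    have ev2 := hlog.eventually (eventually_gt_atTop (-Real.log (1 - α) / (1 - c * Real.log t)))
    have ev3 := hlog.eventually (eventually_ge_atTop (1 : ℝ))
    filter_upwards [ev1, ev2, ev3, eventually_ge_atTop 1] with n g1 g2 g3 g4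
    obtain ⟨d₀, hd1, hd2, _⟩ := g1
    have hne : {d | 1 ≤ d ∧ ∃ f : D α n → (Fin d → Fin t), Function.Injective f ∧
        ∀ x y : D α n, (x : ℕ) ∣ y ↔ f x ≤ f y}.Nonempty := ⟨d₀, hd1, hd2⟩
    have hmem := Nat.sInf_mem hne
    have h2 := lower α hα hα1 t n _ hmem.2
    have h3 : sInf {d | 1 ≤ d ∧ ∃ f : D α n → (Fin d → Fin t), Function.Injective f ∧
        ∀ x y : D α n, (x : ℕ) ∣ y ↔ f x ≤ f y} = tdim t (D α n) := rfl
    rw [h3] at h2
    have hn0 : (0 : ℝ) < n := by
      have : 0 < n := g4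
      exact_mod_cast this
    have h4 := Real.log_le_log (mul_pos (by linarith) hn0) h2
    rw [Real.log_mul (by linarith) hn0.ne', Real.log_pow] at h4
    rw [div_lt_iff₀ h1] at g2
    rw [lt_div_iff₀ (by linarith)]
    have h5 : c * Real.log n * Real.log t < (tdim t (D α n) : ℝ) * Real.log t := by nlinarith
    exact lt_of_mul_lt_mul_right h5 hlt.le
  · intro c hc
    obtain ⟨c', h1, h2⟩ := exists_between hc
    have ev1 := upper α hα t ht c' h1
    have ev3 := hlog.eventually (eventually_ge_atTop (1 : ℝ))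
    filter_upwards [ev1, ev3] with n g1 g3
    obtain ⟨d, hd1, hd2, hd3⟩ := g1
    have h3 : tdim t (D α n) ≤ d := Nat.sInf_le ⟨hd1, hd2⟩
    have h4 : (tdim t (D α n) : ℝ) ≤ d := by exact_mod_cast h3
    rw [div_lt_iff₀ (by linarith)]
    nlinarith

/-- For all `0 < α < 1` and `t ≥ 2`: `dim_t(Div((αn, n])) ∼ (1 / log t) log n` as `n → ∞`. -/
theorem result (α : ℝ) (hα : 0 < α) (hα1 : α < 1) (t : ℕ) (ht : 2 ≤ t) :
    Asymptotics.IsEquivalent atTop (fun n : ℕ => (tdim t (D α n) : ℝ))
      (fun n : ℕ => (1 / Real.log t) * Real.log n) := by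
  have ht' : (2 : ℝ) ≤ t := by exact_mod_cast ht
  have hlt : 0 < Real.log t := Real.log_pos (by linarith)
  have hlog : Tendsto (fun n : ℕ => Real.log n) atTop atTop :=
    Real.tendsto_log_atTop.comp tendsto_natCast_atTop_atTop
  have ev3 := hlog.eventually (eventually_ge_atTop (1 : ℝ))
  rw [Asymptotics.isEquivalent_iff_tendsto_one]
  · have h1 := (tendsto_main α hα hα1 t ht).mul_const (Real.log t)
    rw [one_div, inv_mul_cancel₀ hlt.ne'] at h1
    refine h1.congr' ?_
    filter_upwards [ev3] with n hn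
    have : Real.log n ≠ 0 := by linarith
    simp only [Pi.div_apply]
    field_simp
  · filter_upwards [ev3] with n hn
    have : 0 < Real.log n := by linarith
    positivity

end Pool.Agent.Results.MP_d046ed_co.DimensionAsymptotics
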